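import Pool.Agent.Y274.IH.Main

/-!
# MP_2231f7_an: comparison principle for infinity-harmonic circle-valued maps

In every dimension, the difference of two infinity-harmonic circle-valued maps with homotopic data
has a real lift which takes its maximum and its minimum on the boundary. Uniqueness, the question of
`MP_2231f7_an`, is the case of equal data (and of planar annuli).
-/

set_option autoImplicit false

namespace Pool.Agent.Results.MP_2231f7_an.ComparisonPrinciple

open Pool.Agent.Y274.IH

/-- **Comparison principle.** Let `Ω` be a bounded open subset of `ℝⁿ`, `n ≥ 1`, let `u₀` and `v₀` be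
continuous maps from the closure of `Ω` to the circle `ℝ / ℤ`, and let `h` be a continuous real
function on the closure with `h = u₀ - v₀` modulo `1` (such a function exists if and only if `u₀` and
`v₀` are homotopic). Let `u` and `v` be infinity-harmonic with data `u₀` and `v₀`, that is uniform
limits of minimisers of `∫ |du|^p`, `p = q j → ∞`, in their classes. Then

1. there is a continuous real function `w` with `w = u - v` modulo `1` and `w = h` on the boundary
   such that all bounds `a ≤ h ≤ b` on the boundary imply `a ≤ w ≤ b` everywhere; in particular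
   `|u - v|` is everywhere at most the maximum of `|h|` on the boundary;
2. if `u₀ = v₀` then `u = v`.

3. (question Q1) In particular, for every annular region `Ω` of the plane and every Lipschitz `u₀`,
any two infinity-harmonic maps with data `u₀` coincide. -/
theorem result :
    (∀ (n : ℕ), 1 ≤ n → ∀ Ω : Set (E n), IsOpen Ω → Bornology.IsBounded Ω →
      ∀ u₀ v₀ u v : C(closure Ω, S1), IsInftyHarmonic Ω u₀ u → IsInftyHarmonic Ω v₀ v →
      (∀ h : closure Ω → ℝ, Continuous h → (∀ x, ((h x : ℝ) : S1) = u₀ x - v₀ x) →
        ∃ w : closure Ω → ℝ, Continuous w ∧ (∀ x, ((w x : ℝ) : S1) = u x - v x) ∧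
          (∀ x : closure Ω, (x : E n) ∈ frontier Ω → w x = h x) ∧
          ∀ a b : ℝ, (∀ x : closure Ω, (x : E n) ∈ frontier Ω → a ≤ h x ∧ h x ≤ b) →
            ∀ x, a ≤ w x ∧ w x ≤ b) ∧
      (u₀ = v₀ → u = v)) ∧
    (∀ Ω : Set (E 2), IsAnnular Ω → ∀ u₀ : C(closure Ω, S1), (∃ K : NNReal, LipschitzWith K u₀) →
      ∀ u u' : C(closure Ω, S1), IsInftyHarmonic Ω u₀ u → IsInftyHarmonic Ω u₀ u' → u = u') := by
  refine ⟨fun n hn Ω hΩ hb u₀ v₀ u v hu hv => ⟨fun h hc hh => difference hn hΩ hb hu hv hc hh,
    fun he => ?_⟩, fun Ω hΩ u₀ _ u u' hu hu' => unique (by norm_num) hΩ.1 hΩ.2.2.1 hu hu'⟩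
  subst he
  exact unique hn hΩ hb hu hv

end Pool.Agent.Results.MP_2231f7_an.ComparisonPrinciple
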